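import Pool.Agent.MNT.StmtsG

/-!
# Squad MNT, row PTC: the generator does not vanish at the conjugate point
-/

set_option autoImplicit false

namespace Pool.Agent.MNT.H84

open Polynomial NumberField

/-- the value at the point `(x, -y)` -/
noncomputable def evm {K : Type} [Field K] (f : K[X]) (x y : K) (h : y ^ 2 = f.eval x) :
    H58Q.Q K f →+* K where
  toFun u := u.re.eval x - u.im.eval x * y
  map_one' := by
    rw [QuadraticAlgebra.re_one, QuadraticAlgebra.im_one, eval_one, eval_zero]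
    ring
  map_zero' := by
    rw [QuadraticAlgebra.re_zero, QuadraticAlgebra.im_zero, eval_zero]
    ring
  map_add' a b := by
    rw [QuadraticAlgebra.re_add, QuadraticAlgebra.im_add, eval_add, eval_add]
    ring
  map_mul' a b := by
    rw [QuadraticAlgebra.re_mul, QuadraticAlgebra.im_mul]
    simp only [eval_add, eval_mul, eval_zero]
    rw [← h]
    ring

/-- PTC -/
theorem ptc (hPTB : PtbStmt) : PtcStmt := by
  intro K _ f x y N h2 hf hxy hy hN α hα h0
  obtain ⟨c, -, hc⟩ := hPTB K f x y N h2 hf hxy hy α hα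
  have h1 := congrArg (eval x) hc
  rw [eval_sub, eval_pow, h0, eval_mul, eval_mul, eval_pow, eval_pow, eval_sub, eval_X, eval_C, eval_C,
    sub_self, zero_pow (by omega : N ≠ 0), mul_zero, zero_pow (by norm_num : (2 : ℕ) ≠ 0), zero_sub,
    neg_eq_zero, mul_eq_zero, ← hxy] at h1
  have h3 : eval x α.im = 0 := by
    rcases h1 with h1 | h1
    · exact absurd h1 (pow_ne_zero 2 hy)
    · exact pow_eq_zero_iff (by norm_num : (2 : ℕ) ≠ 0) |>.1 h1
  have h4 : evm f x y hxy α = 0 := by
    change eval x α.re - eval x α.im * y = 0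
    rw [h0, h3]
    ring
  have h5 : (⟨-C y, 1⟩ : H58Q.Q K f) ^ N ∈ Ideal.span {α} := by
    rw [← hα]
    exact Ideal.pow_mem_pow (Ideal.subset_span (Set.mem_insert_of_mem _ (Set.mem_singleton _))) N
  obtain ⟨β, hβ⟩ := Ideal.mem_span_singleton'.1 h5
  have h6 : (evm f x y hxy (⟨-C y, 1⟩ : H58Q.Q K f)) ^ N = 0 := by
    rw [← map_pow, ← hβ, map_mul, h4, mul_zero]
  have h7 : evm f x y hxy (⟨-C y, 1⟩ : H58Q.Q K f) = -(2 * y) := by
    change eval x (-C y) - eval x 1 * y = -(2 * y)
    rw [eval_neg, eval_C, eval_one]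
    ring
  rw [h7] at h6
  exact neg_ne_zero.2 (mul_ne_zero h2 hy) (pow_eq_zero_iff (by omega : N ≠ 0) |>.1 h6)

end Pool.Agent.MNT.H84
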